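import Pool.Agent.H50.ODG.Targets

/-!
# odg_modules, row FRM: frames
-/

set_option autoImplicit false

open Pool.Agent.H57.CP Pool.Agent.H39.TO Pool.Agent.H39.OD Pool.Agent.H50.ODG

namespace Pool.Agent.H46.ODG

/-- the vector orthogonal to three vectors -/
def crs (a b c : V4) : V4 :=
  ![a 1 * (b 2 * c 3 - b 3 * c 2) - a 2 * (b 1 * c 3 - b 3 * c 1) + a 3 * (b 1 * c 2 - b 2 * c 1),
    -(a 0 * (b 2 * c 3 - b 3 * c 2) - a 2 * (b 0 * c 3 - b 3 * c 0) + a 3 * (b 0 * c 2 - b 2 * c 0)),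
    a 0 * (b 1 * c 3 - b 3 * c 1) - a 1 * (b 0 * c 3 - b 3 * c 0) + a 3 * (b 0 * c 1 - b 1 * c 0),
    a 0 * (b 1 * c 2 - b 2 * c 1) - a 1 * (b 0 * c 2 - b 2 * c 0) + a 2 * (b 0 * c 1 - b 1 * c 0)]

theorem crs_a (a b c : V4) : mk (crs a b c) a = 0 := by
  simp only [mk, crs, Matrix.cons_val]
  ring

theorem crs_b (a b c : V4) : mk (crs a b c) b = 0 := by
  simp only [mk, crs, Matrix.cons_val]
  ring

theorem crs_c (a b c : V4) : mk (crs a b c) c = 0 := by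
  simp only [mk, crs, Matrix.cons_val]
  ring

theorem crs_sq (a b c : V4) : mk (crs a b c) (crs a b c) =
    -(mk a a * (mk b b * mk c c - mk b c ^ 2) - mk a b * (mk a b * mk c c - mk b c * mk a c) +
      mk a c * (mk a b * mk b c - mk b b * mk a c)) := by
  simp only [mk, crs, Matrix.cons_val]
  ring

theorem mk_comm (a b : V4) : mk a b = mk b a := by
  unfold mk
  ring

/-- the linear map with given images of the basis -/
def frm (a b c d : V4) : V4 →ₗ[ℝ] V4 where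
  toFun v := fun i => v 0 * a i + v 1 * b i + v 2 * c i + v 3 * d i
  map_add' x y := by ext i; simp; ring
  map_smul' r x := by ext i; simp; ring

theorem frm_mk {a b c d : V4} (ha : mk a a = -1) (hb : mk b b = -1) (hc : mk c c = -1)
    (hd : mk d d = 1) (hab : mk a b = 0) (hac : mk a c = 0) (had : mk a d = 0)
    (hbc : mk b c = 0) (hbd : mk b d = 0) (hcd : mk c d = 0) (v w : V4) :
    mk (frm a b c d v) (frm a b c d w) = mk v w := by
  have h : mk (frm a b c d v) (frm a b c d w) =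
      v 0 * w 0 * mk a a + v 1 * w 1 * mk b b + v 2 * w 2 * mk c c + v 3 * w 3 * mk d d +
      (v 0 * w 1 + v 1 * w 0) * mk a b + (v 0 * w 2 + v 2 * w 0) * mk a c +
      (v 0 * w 3 + v 3 * w 0) * mk a d + (v 1 * w 2 + v 2 * w 1) * mk b c +
      (v 1 * w 3 + v 3 * w 1) * mk b d + (v 2 * w 3 + v 3 * w 2) * mk c d := by
    simp only [mk, frm, LinearMap.coe_mk, AddHom.coe_mk]
    ring
  rw [h, ha, hb, hc, hd, hab, hac, had, hbc, hbd, hcd]
  unfold mk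
  ring

theorem frm_mkd {a b c d : V4} (hd : mk d d = 1) (had : mk a d = 0) (hbd : mk b d = 0)
    (hcd : mk c d = 0) (v : V4) : mk (frm a b c d v) d = v 3 := by
  have h : mk (frm a b c d v) d =
      v 0 * mk a d + v 1 * mk b d + v 2 * mk c d + v 3 * mk d d := by
    simp only [mk, frm, LinearMap.coe_mk, AddHom.coe_mk]
    ring
  rw [h, hd, had, hbd, hcd]
  ring

/-- timelike vectors in the future of a point of the upper sheet -/
theorem fut {w : V4} {x : V4} (hw : mk w w = 1) (hx : mk x x = 1) (hx0 : 0 < x 3)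
    (h : 0 < mk w x) : 0 < w 3 := by
  by_contra hc
  push Not at hc
  unfold mk at hw hx h
  have h1 : w 0 * x 0 + w 1 * x 1 + w 2 * x 2 < w 3 * x 3 := by linarith
  have h2 : w 3 * x 3 ≤ 0 := mul_nonpos_of_nonpos_of_nonneg hc hx0.le
  have h3 : (w 0 * x 0 + w 1 * x 1 + w 2 * x 2) ^ 2 ≤
      (w 0 ^ 2 + w 1 ^ 2 + w 2 ^ 2) * (x 0 ^ 2 + x 1 ^ 2 + x 2 ^ 2) := by
    nlinarith [sq_nonneg (w 0 * x 1 - w 1 * x 0), sq_nonneg (w 0 * x 2 - w 2 * x 0),
      sq_nonneg (w 1 * x 2 - w 2 * x 1)]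
  have h4 : w 0 ^ 2 + w 1 ^ 2 + w 2 ^ 2 = w 3 ^ 2 - 1 := by linarith
  have h5 : x 0 ^ 2 + x 1 ^ 2 + x 2 ^ 2 = x 3 ^ 2 - 1 := by linarith
  rw [h4, h5] at h3
  have h6 : (w 3 * x 3) ^ 2 < (w 0 * x 0 + w 1 * x 1 + w 2 * x 2) ^ 2 := by nlinarith
  have h7 : 1 ≤ w 3 ^ 2 := by nlinarith [sq_nonneg (w 0), sq_nonneg (w 1), sq_nonneg (w 2)]
  have h8 : 1 ≤ x 3 ^ 2 := by nlinarith [sq_nonneg (x 0), sq_nonneg (x 1), sq_nonneg (x 2)]
  nlinarith

theorem pf_FRM (hMKI : T_MKI) (hLOR : T_LOR) (hCTR : T_CTR) : T_FRM := by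
  intro x x' n hn hxn hxn' hne
  obtain ⟨h1, h2, -⟩ := hCTR x x' x
  set L : ℝ := ch x x' with hL
  have hL1 : 1 < L := lt_of_le_of_ne h1 fun h => hne (h2 h.symm)
  set S : ℝ := Real.sqrt (L ^ 2 - 1) with hS
  have hS2 : S ^ 2 = L ^ 2 - 1 := Real.sq_sqrt (by nlinarith)
  have hS0 : 0 < S := Real.sqrt_pos.2 (by nlinarith)
  have hxx : mk x.1 x.1 = 1 := x.2.1
  have hxx' : mk x'.1 x'.1 = 1 := x'.2.1
  have hch : mk x.1 x'.1 = L := rfl
  obtain ⟨e2, he2⟩ : ∃ e2 : V4, e2 = fun i => (x'.1 i - L * x.1 i) / S := ⟨_, rfl⟩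
  have he22 : mk e2 e2 = -1 := by
    have h3 : mk e2 e2 = (mk x'.1 x'.1 - 2 * L * mk x.1 x'.1 + L ^ 2 * mk x.1 x.1) / S ^ 2 := by
      rw [he2]
      unfold mk
      field_simp
      ring
    rw [h3, hxx, hxx', hch, hS2]
    have h4 : L ^ 2 - 1 ≠ 0 := by nlinarith
    field_simp
    ring
  have he2x : mk e2 x.1 = 0 := by
    have h3 : mk e2 x.1 = (mk x.1 x'.1 - L * mk x.1 x.1) / S := by
      rw [he2]
      unfold mk
      field_simp
      ring
    rw [h3, hxx, hch]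
    simp
  have he2n : mk n e2 = 0 := by
    have h3 : mk n e2 = (mk x'.1 n - L * mk x.1 n) / S := by
      rw [he2]
      unfold mk
      field_simp
      ring
    rw [h3, hxn, hxn']
    simp
  obtain ⟨e1, he1⟩ : ∃ e1 : V4, e1 = crs n e2 x.1 := ⟨_, rfl⟩
  have hnx : mk n x.1 = 0 := by rw [mk_comm]; exact hxn
  have he11 : mk e1 e1 = -1 := by
    rw [he1, crs_sq, hn, he22, hxx, he2n, hnx, he2x]
    ring
  have he1n : mk n e1 = 0 := by rw [he1, mk_comm]; exact crs_a _ _ _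
  have he12 : mk e1 e2 = 0 := by rw [he1]; exact crs_b _ _ _
  have he1x : mk e1 x.1 = 0 := by rw [he1]; exact crs_c _ _ _
  obtain ⟨G, hG⟩ : ∃ G : V4 →ₗ[ℝ] V4, G = frm n e1 e2 x.1 := ⟨_, rfl⟩
  have hGG : ∀ v w, mk (G v) (G w) = mk v w := fun v w => by
    rw [hG]
    exact frm_mk hn he11 he22 hxx he1n he2n hnx he12 he1x he2x v w
  have hGl : Lor G := by
    refine ⟨hGG, fun y => ?_⟩
    refine fut (w := G y.1) (x := x.1) ?_ hxx x.2.2 ?_
    · rw [hGG]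
      exact y.2.1
    · rw [hG, frm_mkd hxx hnx he1x he2x]
      exact y.2.2
  obtain ⟨g, hg, hE⟩ := hMKI G hGl
  refine ⟨g, G, hg, hE, hGl, ?_, ?_, ?_⟩
  · apply Subtype.ext
    rw [← hE o, hG]
    ext i
    simp [frm, o]
  · apply Subtype.ext
    rw [← hE, hG]
    have h3 : Real.sqrt (1 + (0 : ℝ) ^ 2 + 0 ^ 2 + S ^ 2) = L := by
      rw [hS2, show (1 : ℝ) + 0 ^ 2 + 0 ^ 2 + (L ^ 2 - 1) = L ^ 2 by ring,
        Real.sqrt_sq (by linarith)]
    ext i
    simp only [frm, pt, LinearMap.coe_mk, AddHom.coe_mk, Matrix.cons_val]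
    rw [h3, he2]
    field_simp
    ring
  · rw [hG]
    ext i
    simp [frm, m1]

end Pool.Agent.H46.ODG
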